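import Mathlib
import Pool.Agent.R983.ExpMat

/-!
# MP_bada7b_pr: the modified log-Sobolev constant is not controlled by entropy mixing

For `L` large put `ε = e^{-L}` and take the birth and death chain on three states with stationary
distribution `(ε, ε, 1 - 2ε)` whose conductances are both `ε / 2`. Its spectral gap is of order
one, its entropy mixing time and its entropy hitting-time parameter are at most `20 log L`, but
the function `f = (L, L - log L, 0)` shows that the modified log-Sobolev constant is at most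
`(log L + 1) / L`.
-/

set_option autoImplicit false

open Finset Filter Topology

namespace Pool.Agent.Results.MP_bada7b_pr.ThreeStates

noncomputable section

variable {Ω : Type*} [Fintype Ω] [DecidableEq Ω]

/-- `P` is an irreducible transition matrix on the finite set `Ω`, reversible with respect to the
probability distribution `π` (which is then its stationary distribution). -/
structure IsReversibleChain (P : Matrix Ω Ω ℝ) (π : Ω → ℝ) : Prop where
  nonneg : ∀ x y, 0 ≤ P x y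
  row : ∀ x, ∑ y, P x y = 1
  irreducible : ∀ x y, ∃ n : ℕ, 0 < (P ^ n) x y
  pos : ∀ x, 0 < π x
  total : ∑ x, π x = 1
  reversible : ∀ x y, π x * P x y = π y * P y x

/-- The Dirichlet form `𝓔(f, g) = ⟨(I - P) f, g⟩_π`. -/
def dirichlet (P : Matrix Ω Ω ℝ) (π f g : Ω → ℝ) : ℝ :=
  ∑ x, π x * (((1 - P).mulVec f) x * g x)

/-- `Ent_π(f) = E_π[f log f] - E_π[f] log E_π[f]`. -/
def ent (π f : Ω → ℝ) : ℝ :=
  (∑ x, π x * (f x * Real.log (f x))) - (∑ x, π x * f x) * Real.log (∑ x, π x * f x)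

/-- The modified log-Sobolev constant: the infimum of `𝓔(e^f, f) / Ent_π(e^f)` over the
non-constant functions `f`. -/
def cMLS (P : Matrix Ω Ω ℝ) (π : Ω → ℝ) : ℝ :=
  sInf {r : ℝ | ∃ f : Ω → ℝ, (∃ x y, f x ≠ f y) ∧
    r = dirichlet P π (fun x => Real.exp (f x)) f / ent π (fun x => Real.exp (f x))}

/-- The heat kernel `H_t = e^{-t (I - P)}`; its row `x` is the law at time `t` of the
continuous-time chain started at `x`. -/
def heat (P : Matrix Ω Ω ℝ) (t : ℝ) : Matrix Ω Ω ℝ := NormedSpace.exp (-(t • (1 - P)))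

/-- Relative entropy `D(μ ‖ π)`. -/
def relEnt (μ π : Ω → ℝ) : ℝ := ∑ y, μ y * Real.log (μ y / π y)

/-- The entropy mixing time `max_x inf {t : D(H_t(x, ·) ‖ π) ≤ 1/2}`. -/
def tauEnt (P : Matrix Ω Ω ℝ) (π : Ω → ℝ) : ℝ :=
  ⨆ x, sInf {t : ℝ | 0 ≤ t ∧ relEnt (fun y => heat P t x y) π ≤ 1 / 2}

/-- `survival P A t x` is the probability that the continuous-time chain started at `x` has not
left the set `A` by time `t`, i.e. `Pr_x[T_{A^c} > t]`: it is the sum over `y ∈ A` of the entries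
`(x, y)` of `e^{-t (I - P_A)}`, where `P_A` is the restriction of `P` to `A`; it is zero if
`x ∉ A`. -/
def survival (P : Matrix Ω Ω ℝ) (A : Finset Ω) (t : ℝ) (x : Ω) : ℝ :=
  if h : x ∈ A then
    ∑ y : A, (NormedSpace.exp (-(t • ((1 : Matrix A A ℝ) - P.submatrix (↑) (↑)))) :
      Matrix A A ℝ) ⟨x, h⟩ y
  else 0

/-- `A` is connected: from every state of `A` one can reach every other state of `A` within `A`. -/
def IsConn (P : Matrix Ω Ω ℝ) (A : Finset Ω) : Prop :=
  ∀ a ∈ A, ∀ b ∈ A, Relation.ReflTransGen (fun u v => u ∈ A ∧ v ∈ A ∧ 0 < P u v) a b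

/-- The entropy hitting-time parameter `ρ_ent` (with the constant `Cent` in place of `C_ent`). -/
def rhoEnt (Cent : ℝ) (P : Matrix Ω Ω ℝ) (π : Ω → ℝ) : ℝ :=
  ⨆ x, sInf {t : ℝ | 0 ≤ t ∧ ∀ A : Finset Ω, A.Nonempty → IsConn P A → ∑ y ∈ A, π y ≤ 1 / 2 →
    survival P A t x ≤ min (Cent / |Real.log (∑ y ∈ A, π y)|) (99 / 100)}

/-! ### The chain -/

/-- the stationary distribution -/
def pi3 (e : ℝ) : Fin 3 → ℝ := ![e, e, 1 - 2 * e]

/-- the transition matrix -/
def P3 (e : ℝ) : Matrix (Fin 3) (Fin 3) ℝ :=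
  !![1/2, 1/2, 0; 1/2, 0, 1/2; 0, e / (2 * (1 - 2 * e)), 1 - e / (2 * (1 - 2 * e))]

theorem q_bounds {e : ℝ} (h0 : 0 < e) (h1 : e ≤ 1 / 10) :
    0 < e / (2 * (1 - 2 * e)) ∧ e / (2 * (1 - 2 * e)) ≤ e := by
  constructor
  · apply div_pos h0; linarith
  · rw [div_le_iff₀ (by linarith)]; nlinarith

theorem q_eq {e : ℝ} (h1 : e ≤ 1 / 10) :
    (1 - 2 * e) * (e / (2 * (1 - 2 * e))) = e / 2 := by
  have hne : (1 - 2 * e) ≠ 0 := by intro h; linarith
  rw [mul_div_assoc', mul_comm 2 (1 - 2 * e), mul_div_mul_left _ _ hne]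

theorem isChain {e : ℝ} (h0 : 0 < e) (h1 : e ≤ 1 / 10) : IsReversibleChain (P3 e) (pi3 e) := by
  obtain ⟨hq0, hq1⟩ := q_bounds h0 h1
  have hnn : ∀ x y, 0 ≤ P3 e x y := by
    intro x y
    fin_cases x <;> fin_cases y <;> simp [P3] <;> linarith
  refine ⟨hnn, ?_, ?_, ?_, ?_, ?_⟩
  · intro x
    fin_cases x <;> simp [P3, Fin.sum_univ_three] <;> norm_num
  · have h2 : ∀ x y, 0 < (P3 e ^ 2) x y := by
      intro x y
      rw [pow_two, Matrix.mul_apply, Fin.sum_univ_three]
      fin_cases x <;> fin_cases y <;> simp [P3] <;> nlinarith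
    exact fun x y => ⟨2, h2 x y⟩
  · intro x
    fin_cases x <;> simp [pi3] <;> linarith
  · simp [pi3, Fin.sum_univ_three]; ring
  · have hq := q_eq h1
    intro x y
    fin_cases x <;> fin_cases y <;> simp [P3, pi3] <;> linarith

/-- the Dirichlet form of the chain -/
theorem dirichlet3 {e : ℝ} (h1 : e ≤ 1 / 10) (f g : Fin 3 → ℝ) :
    dirichlet (P3 e) (pi3 e) f g =
      e / 2 * ((f 0 - f 1) * (g 0 - g 1)) + e / 2 * ((f 1 - f 2) * (g 1 - g 2)) := by
  have hq := q_eq h1
  simp only [dirichlet, Matrix.mulVec, dotProduct, Fin.sum_univ_three, Matrix.sub_apply,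
    Matrix.one_apply, P3, pi3]
  simp
  linear_combination ((f 2 - f 1) * g 2) * hq

/-! ### The modified log-Sobolev constant -/

theorem sq_le_of_exp {a b M : ℝ} (ha : Real.exp a ≤ M) (hb : Real.exp b ≤ M) :
    (Real.exp a - Real.exp b) ^ 2 ≤ (Real.exp a - Real.exp b) * (a - b) * M := by
  wlog h : b ≤ a generalizing a b with H
  · have := H hb ha (le_of_not_ge h)
    nlinarith
  have h1 : Real.exp a - Real.exp b ≤ Real.exp a * (a - b) := by
    have h2 := Real.add_one_le_exp (b - a)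
    have h3 : Real.exp b = Real.exp a * Real.exp (b - a) := by rw [← Real.exp_add]; ring_nf
    rw [h3]
    nlinarith [Real.exp_pos a]
  have h4 : 0 ≤ Real.exp a - Real.exp b := sub_nonneg.mpr (Real.exp_le_exp.mpr h)
  have h5 : Real.exp a * (a - b) ≤ M * (a - b) :=
    mul_le_mul_of_nonneg_right ha (sub_nonneg.mpr h)
  calc (Real.exp a - Real.exp b) ^ 2 = (Real.exp a - Real.exp b) * (Real.exp a - Real.exp b) := by
        ring
    _ ≤ (Real.exp a - Real.exp b) * (M * (a - b)) :=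
        mul_le_mul_of_nonneg_left (h1.trans h5) h4
    _ = _ := by ring

theorem prod_nonneg' (a b : ℝ) : 0 ≤ (Real.exp a - Real.exp b) * (a - b) := by
  rcases le_total b a with h | h
  · exact mul_nonneg (sub_nonneg.mpr (Real.exp_le_exp.mpr h)) (sub_nonneg.mpr h)
  · exact mul_nonneg_of_nonpos_of_nonpos (sub_nonpos.mpr (Real.exp_le_exp.mpr h))
      (sub_nonpos.mpr h)

/-- positivity of the entropy of a non-constant function -/
theorem ent_pos {e : ℝ} (h0 : 0 < e) (h1 : e ≤ 1 / 10) (f : Fin 3 → ℝ)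
    (hf : ∃ x y, f x ≠ f y) : 0 < ent (pi3 e) (fun x => Real.exp (f x)) := by
  have hc := isChain h0 h1
  set m := ∑ x, pi3 e x * Real.exp (f x) with hm
  have hm0 : 0 < m := Finset.sum_pos (fun x _ => mul_pos (hc.pos x) (Real.exp_pos _))
    Finset.univ_nonempty
  have key : ent (pi3 e) (fun x => Real.exp (f x)) =
      ∑ x, pi3 e x * (Real.exp (f x) * (f x - Real.log m) - Real.exp (f x) + m) := by
    have e1 : ∀ x, pi3 e x * (Real.exp (f x) * (f x - Real.log m) - Real.exp (f x) + m) =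
        pi3 e x * (Real.exp (f x) * Real.log (Real.exp (f x))) -
          (pi3 e x * Real.exp (f x)) * Real.log m - pi3 e x * Real.exp (f x) + pi3 e x * m := by
      intro x; rw [Real.log_exp]; ring
    simp only [e1, Finset.sum_add_distrib, Finset.sum_sub_distrib, ← Finset.sum_mul]
    rw [← hm, hc.total, ent, ← hm]
    ring
  rw [key]
  have hterm : ∀ x, 0 ≤ Real.exp (f x) * (f x - Real.log m) - Real.exp (f x) + m := by
    intro x
    have h2 := Real.add_one_le_exp (Real.log m - f x)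
    have h3 : m = Real.exp (f x) * Real.exp (Real.log m - f x) := by
      rw [← Real.exp_add]; ring_nf; rw [Real.exp_log hm0]
    nlinarith [Real.exp_pos (f x)]
  have hstrict : ∃ x, 0 < Real.exp (f x) * (f x - Real.log m) - Real.exp (f x) + m := by
    obtain ⟨x, y, hxy⟩ := hf
    have : f x ≠ Real.log m ∨ f y ≠ Real.log m := by
      by_contra hcon
      push Not at hcon
      exact hxy (hcon.1.trans hcon.2.symm)
    have main : ∀ z, f z ≠ Real.log m →
        0 < Real.exp (f z) * (f z - Real.log m) - Real.exp (f z) + m := by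
      intro z hz
      have h2 := Real.add_one_lt_exp (sub_ne_zero.mpr (Ne.symm hz) : Real.log m - f z ≠ 0)
      have h3 : m = Real.exp (f z) * Real.exp (Real.log m - f z) := by
        rw [← Real.exp_add]; ring_nf; rw [Real.exp_log hm0]
      nlinarith [Real.exp_pos (f z)]
    rcases this with h | h
    · exact ⟨x, main x h⟩
    · exact ⟨y, main y h⟩
  obtain ⟨z, hz⟩ := hstrict
  exact Finset.sum_pos' (fun x _ => mul_nonneg (hc.pos x).le (hterm x))
    ⟨z, Finset.mem_univ z, mul_pos (hc.pos z) hz⟩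

/-- a (crude) modified log-Sobolev inequality -/
theorem ent_le {e : ℝ} (h0 : 0 < e) (h1 : e ≤ 1 / 10) (f : Fin 3 → ℝ) :
    e ^ 2 / 2 * ent (pi3 e) (fun x => Real.exp (f x)) ≤
      dirichlet (P3 e) (pi3 e) (fun x => Real.exp (f x)) f := by
  have hc := isChain h0 h1
  set m := ∑ x, pi3 e x * Real.exp (f x) with hm
  have hm0 : 0 < m := Finset.sum_pos (fun x _ => mul_pos (hc.pos x) (Real.exp_pos _))
    Finset.univ_nonempty
  -- Ent ≤ Var / m
  have hvar : m * ent (pi3 e) (fun x => Real.exp (f x)) ≤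
      (∑ x, pi3 e x * Real.exp (f x) ^ 2) - m ^ 2 := by
    have e1 : ent (pi3 e) (fun x => Real.exp (f x)) =
        ∑ x, pi3 e x * (Real.exp (f x) * (f x - Real.log m)) := by
      have e2 : ∀ x, pi3 e x * (Real.exp (f x) * (f x - Real.log m)) =
          pi3 e x * (Real.exp (f x) * Real.log (Real.exp (f x))) -
            (pi3 e x * Real.exp (f x)) * Real.log m := by
        intro x; rw [Real.log_exp]; ring
      simp only [e2, Finset.sum_sub_distrib, ← Finset.sum_mul]
      rw [← hm, ent, ← hm]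
    rw [e1, Finset.mul_sum]
    have e3 : (∑ x, pi3 e x * Real.exp (f x) ^ 2) - m ^ 2 =
        ∑ x, pi3 e x * (Real.exp (f x) * (Real.exp (f x) - m)) := by
      have e4 : ∀ x, pi3 e x * (Real.exp (f x) * (Real.exp (f x) - m)) =
          pi3 e x * Real.exp (f x) ^ 2 - (pi3 e x * Real.exp (f x)) * m := by
        intro x; ring
      simp only [e4, Finset.sum_sub_distrib, ← Finset.sum_mul]
      rw [← hm]; ring
    rw [e3]
    refine Finset.sum_le_sum fun x _ => ?_
    have h2 := Real.add_one_le_exp (f x - Real.log m)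
    have h3 : Real.exp (f x) = m * Real.exp (f x - Real.log m) := by
      rw [Real.exp_sub, Real.exp_log hm0]; field_simp
    have h4 : m * (f x - Real.log m) ≤ Real.exp (f x) - m := by nlinarith
    have h5 := mul_le_mul_of_nonneg_left h4 (mul_nonneg (hc.pos x).le (Real.exp_pos (f x)).le)
    calc m * (pi3 e x * (Real.exp (f x) * (f x - Real.log m)))
        = pi3 e x * Real.exp (f x) * (m * (f x - Real.log m)) := by ring
      _ ≤ pi3 e x * Real.exp (f x) * (Real.exp (f x) - m) := h5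
      _ = _ := by ring
  have hle : ∀ x, Real.exp (f x) ≤ m / e := by
    intro x
    rw [le_div_iff₀ h0]
    have h2 : pi3 e x * Real.exp (f x) ≤ m :=
      Finset.single_le_sum (f := fun x => pi3 e x * Real.exp (f x))
        (fun y _ => mul_nonneg (hc.pos y).le (Real.exp_pos _).le) (Finset.mem_univ x)
    have h3 : e ≤ pi3 e x := by
      fin_cases x <;> simp [pi3]; linarith
    nlinarith [Real.exp_pos (f x)]
  have d01 := sq_le_of_exp (hle 0) (hle 1)
  have d12 := sq_le_of_exp (hle 1) (hle 2)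
  have n01 := prod_nonneg' (f 0) (f 1)
  have n12 := prod_nonneg' (f 1) (f 2)
  rw [dirichlet3 h1]
  set g0 := Real.exp (f 0)
  set g1 := Real.exp (f 1)
  set g2 := Real.exp (f 2)
  set D01 := (g0 - g1) * (f 0 - f 1)
  set D12 := (g1 - g2) * (f 1 - f 2)
  have hm' : m = e * g0 + e * g1 + (1 - 2 * e) * g2 := by
    rw [hm]; simp [pi3, Fin.sum_univ_three]; rfl
  have hv' : (∑ x, pi3 e x * Real.exp (f x) ^ 2) =
      e * g0 ^ 2 + e * g1 ^ 2 + (1 - 2 * e) * g2 ^ 2 := by
    simp [pi3, Fin.sum_univ_three]; rfl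
  rw [hv'] at hvar
  have hvar2 : (e * g0 ^ 2 + e * g1 ^ 2 + (1 - 2 * e) * g2 ^ 2) - m ^ 2 ≤
      e * (g0 - g1) ^ 2 + (1 - 2 * e) * (g1 - g2) ^ 2 := by
    have : (e * g0 ^ 2 + e * g1 ^ 2 + (1 - 2 * e) * g2 ^ 2) - m ^ 2 =
        e * (g0 - g1) ^ 2 + (1 - 2 * e) * (g1 - g2) ^ 2 - (m - g1) ^ 2 := by
      rw [hm']; ring
    rw [this]; nlinarith [sq_nonneg (m - g1)]
  have hme : 0 < m / e := div_pos hm0 h0
  have e5 : e * (g0 - g1) ^ 2 ≤ e * (D01 * (m / e)) := mul_le_mul_of_nonneg_left d01 h0.le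
  have e6 : (1 - 2 * e) * (g1 - g2) ^ 2 ≤ 1 * (D12 * (m / e)) := by
    apply mul_le_mul (by linarith) d12 (sq_nonneg _) zero_le_one
  have e7 : e * (D01 * (m / e)) ≤ 1 * (D01 * (m / e)) :=
    mul_le_mul_of_nonneg_right (by linarith) (mul_nonneg n01 hme.le)
  have e8 : m * ent (pi3 e) (fun x => Real.exp (f x)) ≤ m * ((D01 + D12) / e) := by
    calc m * ent (pi3 e) (fun x => Real.exp (f x)) ≤ 1 * (D01 * (m / e)) + 1 * (D12 * (m / e)) := by
          linarith
      _ = m * ((D01 + D12) / e) := by ring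
  have e9 := le_of_mul_le_mul_left e8 hm0
  have e10 : e ^ 2 / 2 * ent (pi3 e) (fun x => Real.exp (f x)) ≤
      e ^ 2 / 2 * ((D01 + D12) / e) := mul_le_mul_of_nonneg_left e9 (by positivity)
  refine e10.trans (le_of_eq ?_)
  field_simp

theorem cMLS_ge {e : ℝ} (h0 : 0 < e) (h1 : e ≤ 1 / 10) : e ^ 2 / 2 ≤ cMLS (P3 e) (pi3 e) := by
  apply le_csInf
  · exact ⟨_, ![1, 0, 0], ⟨0, 1, by simp⟩, rfl⟩
  · rintro r ⟨f, hf, rfl⟩
    rw [le_div_iff₀ (ent_pos h0 h1 f hf)]
    exact ent_le h0 h1 f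

theorem cMLS_le {L s : ℝ} (hL : L = Real.exp s) (hs : 5 ≤ s) (he : Real.exp (-L) ≤ 1 / 10)
    (hL12 : 12 ≤ L) :
    cMLS (P3 (Real.exp (-L))) (pi3 (Real.exp (-L))) ≤ (s + 1) / L := by
  set e := Real.exp (-L) with hedef
  have h0 : 0 < e := Real.exp_pos _
  have hL0 : 0 < L := by linarith
  set f : Fin 3 → ℝ := ![L, L - s, 0] with hf
  have hne : ∃ x y, f x ≠ f y := ⟨0, 2, by simp [hf]; linarith⟩
  have hsL : s ≤ L := by rw [hL]; linarith [Real.add_one_le_exp s]
  have hmem : dirichlet (P3 e) (pi3 e) (fun x => Real.exp (f x)) f /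
      ent (pi3 e) (fun x => Real.exp (f x)) ∈ {r : ℝ | ∃ f : Fin 3 → ℝ, (∃ x y, f x ≠ f y) ∧
    r = dirichlet (P3 e) (pi3 e) (fun x => Real.exp (f x)) f /
      ent (pi3 e) (fun x => Real.exp (f x))} := ⟨f, hne, rfl⟩
  have hbdd : BddBelow {r : ℝ | ∃ f : Fin 3 → ℝ, (∃ x y, f x ≠ f y) ∧
    r = dirichlet (P3 e) (pi3 e) (fun x => Real.exp (f x)) f /
      ent (pi3 e) (fun x => Real.exp (f x))} := by
    refine ⟨e ^ 2 / 2, ?_⟩
    rintro r ⟨f, hf, rfl⟩
    rw [le_div_iff₀ (ent_pos h0 he f hf)]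
    exact ent_le h0 he f
  refine (csInf_le hbdd hmem).trans ?_
  have a0 : e * Real.exp L = 1 := by rw [hedef, ← Real.exp_add]; simp
  have a1 : e * Real.exp (L - s) = 1 / L := by
    rw [hedef, ← Real.exp_add, hL, one_div, ← Real.exp_neg]; congr 1; ring
  have hd : dirichlet (P3 e) (pi3 e) (fun x => Real.exp (f x)) f ≤ (s + 1) / 2 := by
    rw [dirichlet3 he]
    simp only [hf, Matrix.cons_val_zero, Matrix.cons_val_one, Matrix.cons_val, Real.exp_zero]
    have b1 : e / 2 * ((Real.exp L - Real.exp (L - s)) * (L - (L - s))) = (1 - 1 / L) * s / 2 := by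
      linear_combination (s / 2) * a0 - (s / 2) * a1
    have b2 : e / 2 * ((Real.exp (L - s) - 1) * (L - s - 0)) = (1 / L - e) * (L - s) / 2 := by
      linear_combination ((L - s) / 2) * a1
    rw [b1, b2]
    have b3 : 0 < 1 / L := by positivity
    have b4 : (1 / L) * L = 1 := by field_simp
    nlinarith [mul_nonneg h0.le (sub_nonneg.mpr hsL), mul_pos b3 (by linarith : 0 < s)]
  have hent : L / 2 ≤ ent (pi3 e) (fun x => Real.exp (f x)) := by
    rw [ent]
    simp only [hf, pi3, Fin.sum_univ_three, Matrix.cons_val_zero, Matrix.cons_val_one,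
      Matrix.cons_val, Real.exp_zero, Real.log_exp]
    have c1 : e * (Real.exp L * L) = L := by linear_combination L * a0
    have c2 : e * (Real.exp (L - s) * (L - s)) = (1 / L) * (L - s) := by
      linear_combination (L - s) * a1
    have c3 : 0 ≤ (1 / L) * (L - s) := mul_nonneg (by positivity) (sub_nonneg.mpr hsL)
    have c4 : 1 / L ≤ 1 := by rw [div_le_one hL0]; linarith
    rw [a0, a1]
    have c6 : e * (Real.exp L * L) + e * (Real.exp (L - s) * (L - s)) +
        (1 - 2 * e) * (1 * 0) = L + (1 / L) * (L - s) := by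
      rw [c1, c2]; ring
    rw [c6]
    set m := 1 + 1 / L + (1 - 2 * e) * 1 with hm
    have d1 : 1 ≤ m := by
      have : 0 < 1 / L := by positivity
      rw [hm]; linarith
    have d2 : m ≤ 3 := by rw [hm]; linarith
    have d3 := Real.log_le_sub_one_of_pos (by linarith : 0 < m)
    have d4 : 0 ≤ Real.log m := Real.log_nonneg d1
    have d5 : m * Real.log m ≤ 3 * 2 := mul_le_mul d2 (by linarith) d4 (by norm_num)
    linarith
  rw [div_le_div_iff₀ (by linarith) hL0]
  have hd0 : 0 < s + 1 := by linarith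
  calc _ ≤ (s + 1) / 2 * L := mul_le_mul_of_nonneg_right hd hL0.le
    _ = (s + 1) * (L / 2) := by ring
    _ ≤ _ := mul_le_mul_of_nonneg_left hent hd0.le

/-! ### The decay -/

/-- the function `h = (3/2, 1, 0)` -/
def hh : Fin 3 → ℝ := ![3 / 2, 1, 0]

theorem hh_nonneg (x : Fin 3) : 0 ≤ hh x := by fin_cases x <;> norm_num [hh]

theorem hh_le (x : Fin 3) : hh x ≤ 3 / 2 := by fin_cases x <;> norm_num [hh]

theorem heat_eq (P : Matrix Ω Ω ℝ) (t : ℝ) : heat P t = R983.H P t := by
  rw [heat, R983.H, ← smul_neg, neg_sub]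

theorem tail_le {e : ℝ} (h0 : 0 < e) (h1 : e ≤ 1 / 10) {t : ℝ} (ht : 0 ≤ t) (x : Fin 3) :
    heat (P3 e) t x 0 + heat (P3 e) t x 1 ≤ 3 / 2 * Real.exp (-(t / 10)) + 10 * e := by
  have hc := isChain h0 h1
  obtain ⟨hq0, hq1⟩ := q_bounds h0 h1
  rw [heat_eq]
  have hdec := R983.H_decay hc.nonneg (fun x => (hc.row x).le) (h := hh) (ρ := 9 / 10) (δ := e)
    (by norm_num) (by norm_num) h0.le (by
      intro x
      simp only [Matrix.mulVec, dotProduct, Fin.sum_univ_three]
      fin_cases x <;> simp [P3, hh] <;> linarith) ht x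
  have h3 : (R983.H (P3 e) t).mulVec hh x =
      R983.H (P3 e) t x 0 * (3 / 2) + R983.H (P3 e) t x 1 := by
    simp [Matrix.mulVec, dotProduct, Fin.sum_univ_three, hh]
  have n0 := R983.H_nonneg hc.nonneg ht x 0
  have h4 : Real.exp ((9 / 10 - 1) * t) * hh x ≤ 3 / 2 * Real.exp (-(t / 10)) := by
    have : (9 / 10 - 1) * t = -(t / 10) := by ring
    rw [this, mul_comm]
    exact mul_le_mul_of_nonneg_right (hh_le x) (Real.exp_pos _).le
  have h5 : e / (1 - 9 / 10) = 10 * e := by ring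
  rw [h3, h5] at hdec
  linarith

theorem relEnt_le {e : ℝ} (h0 : 0 < e) (h1 : e ≤ 1 / 10) {t : ℝ} (ht : 0 ≤ t) (x : Fin 3) :
    relEnt (fun y => heat (P3 e) t x y) (pi3 e) ≤
      (3 / 2 * Real.exp (-(t / 10)) + 10 * e) * (-Real.log e) + 4 * e := by
  have hc := isChain h0 h1
  have htail := tail_le h0 h1 ht x
  have hnn : ∀ y, 0 ≤ heat (P3 e) t x y := fun y => by
    rw [heat_eq]; exact R983.H_nonneg hc.nonneg ht x y
  have hsum : heat (P3 e) t x 0 + heat (P3 e) t x 1 + heat (P3 e) t x 2 = 1 := by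
    have := R983.H_row hc.row t x
    rw [← heat_eq, Fin.sum_univ_three] at this
    exact this
  have hloge : 0 ≤ -Real.log e := by
    have := Real.log_nonpos h0.le (by linarith)
    linarith
  have hterm : ∀ y, heat (P3 e) t x y * Real.log (heat (P3 e) t x y / pi3 e y) ≤
      heat (P3 e) t x y * (-Real.log (pi3 e y)) := by
    intro y
    rcases (hnn y).eq_or_lt with h | h
    · rw [← h]; simp
    · apply mul_le_mul_of_nonneg_left _ h.le
      rw [Real.log_div h.ne' (hc.pos y).ne']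
      have h6 : heat (P3 e) t x y ≤ 1 := by
        fin_cases y
        · simp only [Fin.zero_eta]; linarith [hnn 1, hnn 2]
        · simp only [Fin.mk_one]; linarith [hnn 0, hnn 2]
        · show heat (P3 e) t x 2 ≤ 1
          linarith [hnn 0, hnn 1]
      have := Real.log_nonpos h.le h6
      linarith
  have hlast : -Real.log (1 - 2 * e) ≤ 4 * e := by
    have h7 : 0 < 1 - 2 * e := by linarith
    have h8 := Real.one_sub_inv_le_log_of_pos h7
    have h9 : (1 - 2 * e)⁻¹ ≤ 1 + 4 * e := by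
      rw [inv_le_comm₀ h7 (by linarith), inv_le_iff_one_le_mul₀ (by linarith)]
      nlinarith
    linarith
  rw [relEnt, Fin.sum_univ_three]
  have t0 := hterm 0
  have t1 := hterm 1
  have t2 := hterm 2
  simp only [pi3, Matrix.cons_val_zero, Matrix.cons_val_one, Matrix.cons_val] at t0 t1 t2 ⊢
  have h10 : heat (P3 e) t x 2 * (-Real.log (1 - 2 * e)) ≤ 1 * (4 * e) := by
    apply mul_le_mul _ hlast _ zero_le_one
    · linarith [hnn 0, hnn 1]
    · have := Real.log_nonpos (by linarith : 0 ≤ 1 - 2 * e) (by linarith)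
      linarith
  have h11 := mul_le_mul_of_nonneg_right htail hloge
  nlinarith

theorem survival_le {e : ℝ} (h0 : 0 < e) (h1 : e ≤ 1 / 10) {t : ℝ} (ht : 0 ≤ t)
    (A : Finset (Fin 3)) (hA : (2 : Fin 3) ∉ A) (x : Fin 3) :
    survival (P3 e) A t x ≤ 3 / 2 * Real.exp (-(t / 10)) := by
  have hc := isChain h0 h1
  rw [survival]
  split_ifs with hx
  swap
  · positivity
  have hgen : (NormedSpace.exp (-(t • ((1 : Matrix A A ℝ) - (P3 e).submatrix (↑) (↑)))) :
      Matrix A A ℝ) = R983.H ((P3 e).submatrix (↑) (↑) : Matrix A A ℝ) t := by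
    rw [R983.H, ← smul_neg, neg_sub]
  rw [hgen]
  set M : Matrix A A ℝ := (P3 e).submatrix (↑) (↑) with hM
  have hMnn : ∀ a b : A, 0 ≤ M a b := fun a b => hc.nonneg _ _
  have hsub : ∀ (g : Fin 3 → ℝ), (∀ y, 0 ≤ g y) → ∀ a : A,
      ∑ b : A, M a b * g b ≤ ∑ y, P3 e a y * g y := by
    intro g hg a
    have hco : ∑ b : A, M a b * g b = ∑ y ∈ A, P3 e a y * g y :=
      Finset.sum_coe_sort A (fun y => P3 e a y * g y)
    rw [hco]
    exact Finset.sum_le_sum_of_subset_of_nonneg (Finset.subset_univ _)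
      fun y _ _ => mul_nonneg (hc.nonneg _ _) (hg y)
  have hne : ∀ a : A, (a : Fin 3) = 0 ∨ (a : Fin 3) = 1 := by
    rintro ⟨a, ha⟩
    fin_cases a
    · left; rfl
    · right; rfl
    · exact absurd ha hA
  have hdec := R983.H_decay (M := M) hMnn (fun a => by
      have := hsub (fun _ => 1) (fun _ => zero_le_one) a
      simp only [mul_one] at this
      exact this.trans (hc.row a).le) (h := fun a : A => hh a) (ρ := 9 / 10) (δ := 0)
    (by norm_num) (by norm_num) le_rfl (by
      intro a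
      have h2 := hsub hh hh_nonneg a
      have h3 : M.mulVec (fun a : A => hh a) a = ∑ b : A, M a b * hh b := rfl
      rw [h3]
      refine h2.trans ?_
      rw [Fin.sum_univ_three]
      rcases hne a with h | h <;> rw [h] <;> simp [P3, hh] <;> norm_num) ht ⟨x, hx⟩
  have h5 : ∑ y : A, R983.H M t ⟨x, hx⟩ y ≤ (R983.H M t).mulVec (fun a : A => hh a) ⟨x, hx⟩ := by
    simp only [Matrix.mulVec, dotProduct]
    refine Finset.sum_le_sum fun y _ => ?_
    have h6 := R983.H_nonneg hMnn ht ⟨x, hx⟩ y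
    have h7 : 1 ≤ hh y := by
      rcases hne y with h | h <;> rw [h] <;> simp [hh]; norm_num
    nlinarith
  refine h5.trans (hdec.trans ?_)
  have h8 : (9 / 10 - 1) * t = -(t / 10) := by ring
  rw [h8, zero_div, add_zero, mul_comm]
  exact mul_le_mul_of_nonneg_right (hh_le x) (Real.exp_pos _).le

/-- **Disproof of Q1 of MP_bada7b_pr.** -/
theorem result : ∀ Cent : ℝ, 0 < Cent → ∀ C : ℝ,
    ∃ (P : Matrix (Fin 3) (Fin 3) ℝ) (π : Fin 3 → ℝ), IsReversibleChain P π ∧
      0 < cMLS P π ∧ C * rhoEnt Cent P π < 1 / cMLS P π ∧ C * tauEnt P π < 1 / cMLS P π := by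
  intro Cent hCent C
  -- choice of s
  set K : ℝ := 42 * |C| + 2 / Cent + 100 with hK
  have hKpos : 0 < K := by
    have : 0 < 2 / Cent := by positivity
    have := abs_nonneg C
    linarith
  obtain ⟨s, hs1, hs5⟩ := (((Real.tendsto_exp_div_pow_atTop 2).eventually_ge_atTop K).and
    (eventually_ge_atTop (5 : ℝ))).exists
  have hs0 : 0 < s := by linarith
  rw [le_div_iff₀ (by positivity)] at hs1
  obtain ⟨L, hL⟩ : ∃ L, L = Real.exp s := ⟨_, rfl⟩
  rw [← hL] at hs1
  have hs2 : 25 ≤ s ^ 2 := by nlinarith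
  have hKL : K * 25 ≤ L := le_trans (by nlinarith) hs1
  have hCabs := abs_nonneg C
  have hCent2 : 0 < 2 / Cent := by positivity
  have hL100 : 2500 ≤ L := by nlinarith
  have hL0 : 0 < L := by linarith
  have hLC : 2 / Cent ≤ L := by nlinarith
  have hlogL : Real.log L = s := by rw [hL, Real.log_exp]
  set e := Real.exp (-L) with he
  have h0 : 0 < e := Real.exp_pos _
  have heL2 : e * L ^ 2 ≤ 2 := by
    have h2 := Real.quadratic_le_exp_of_nonneg hL0.le
    have h3 : e * Real.exp L = 1 := by rw [he, ← Real.exp_add]; simp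
    have h4 : L ^ 2 / 2 ≤ Real.exp L := by nlinarith
    have h5 := mul_le_mul_of_nonneg_left h4 h0.le
    rw [h3] at h5
    linarith
  have heL : e * L ≤ 1 / 1000 := by
    have h2 : e * L * 2500 ≤ e * L * L := mul_le_mul_of_nonneg_left hL100 (by positivity)
    nlinarith
  have he1 : e ≤ 1 / 10 := by nlinarith
  have hloge : -Real.log e = L := by rw [he, Real.log_exp]; ring
  -- times
  set t₀ : ℝ := 20 * s with ht₀
  have ht0 : 0 ≤ t₀ := by positivity
  have hexp : Real.exp (-(t₀ / 10)) = 1 / L ^ 2 := by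
    rw [ht₀, hL, ← Real.exp_nat_mul, one_div, ← Real.exp_neg]
    congr 1; push_cast; ring
  have hrho : rhoEnt Cent (P3 e) (pi3 e) ≤ t₀ := by
    refine ciSup_le fun x => csInf_le ⟨0, fun t ht => ht.1⟩ ⟨ht0, ?_⟩
    intro A hAne _ hA
    have h2A : (2 : Fin 3) ∉ A := by
      intro h
      have h3 : pi3 e 2 ≤ ∑ y ∈ A, pi3 e y :=
        Finset.single_le_sum (fun y _ => ((isChain h0 he1).pos y).le) h
      have h4 := h3.trans hA
      have h41 : pi3 e 2 = 1 - 2 * e := rfl
      rw [h41] at h4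
      linarith
    refine (survival_le h0 he1 ht0 A h2A x).trans ?_
    rw [hexp]
    obtain ⟨a, ha⟩ := hAne
    have h5 : e ≤ ∑ y ∈ A, pi3 e y := by
      have h6 : pi3 e a ≤ ∑ y ∈ A, pi3 e y :=
        Finset.single_le_sum (fun y _ => ((isChain h0 he1).pos y).le) ha
      have h7 : e ≤ pi3 e a := by
        fin_cases a <;> simp [pi3]; linarith
      linarith
    set pA := ∑ y ∈ A, pi3 e y with hpA
    have hpA0 : 0 < pA := by linarith
    have hlog1 : Real.log pA < 0 := Real.log_neg hpA0 (by linarith)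
    have hlog2 : -L ≤ Real.log pA := by
      have := Real.log_le_log h0 h5
      linarith
    have habs : |Real.log pA| ≤ L := by
      rw [abs_of_neg hlog1]; linarith
    have habs0 : 0 < |Real.log pA| := abs_pos.mpr hlog1.ne
    have h8 : 3 / 2 * (1 / L ^ 2) ≤ Cent / L := by
      rw [mul_one_div, div_le_div_iff₀ (by positivity) hL0]
      have h9 : 2 ≤ L * Cent := by rwa [div_le_iff₀ hCent] at hLC
      nlinarith
    have h10 : Cent / L ≤ Cent / |Real.log pA| :=
      div_le_div_of_nonneg_left hCent.le habs0 habs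
    have h11 : 3 / 2 * (1 / L ^ 2) ≤ 99 / 100 := by
      rw [mul_one_div, div_le_iff₀ (by positivity)]
      nlinarith
    exact le_min (h8.trans h10) h11
  have htau : tauEnt (P3 e) (pi3 e) ≤ t₀ := by
    refine ciSup_le fun x => csInf_le ⟨0, fun t ht => ht.1⟩ ⟨ht0, ?_⟩
    refine (relEnt_le h0 he1 ht0 x).trans ?_
    rw [hexp, hloge]
    have h12 : 3 / 2 * (1 / L ^ 2) * L = 3 / 2 / L := by field_simp
    have h13 : 3 / 2 / L ≤ 1 / 1000 := by
      rw [div_le_div_iff₀ hL0 (by norm_num)]; linarith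
    nlinarith
  have hcle : cMLS (P3 e) (pi3 e) ≤ (s + 1) / L := cMLS_le hL hs5 he1 (by linarith)
  have hcpos : 0 < cMLS (P3 e) (pi3 e) := lt_of_lt_of_le (by positivity) (cMLS_ge h0 he1)
  have hinv : L / (s + 1) ≤ 1 / cMLS (P3 e) (pi3 e) := by
    rw [div_le_div_iff₀ (by linarith) hcpos]
    have := (le_div_iff₀ hL0).mp hcle
    linarith
  have hmain : |C| * t₀ < L / (s + 1) := by
    rw [lt_div_iff₀ (by linarith), ht₀]
    have h14 : s + 1 ≤ 2 * s := by linarith
    have h15 : |C| * (20 * s) * (s + 1) ≤ |C| * (20 * s) * (2 * s) :=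
      mul_le_mul_of_nonneg_left h14 (by positivity)
    have h16 : |C| * (20 * s) * (2 * s) = 40 * |C| * s ^ 2 := by ring
    have h17 : 40 * |C| * s ^ 2 < K * s ^ 2 := by
      apply mul_lt_mul_of_pos_right _ (by positivity)
      rw [hK]; linarith
    linarith
  have hnn1 : 0 ≤ rhoEnt Cent (P3 e) (pi3 e) :=
    Real.iSup_nonneg fun x => Real.sInf_nonneg fun t ht => ht.1
  have hnn2 : 0 ≤ tauEnt (P3 e) (pi3 e) :=
    Real.iSup_nonneg fun x => Real.sInf_nonneg fun t ht => ht.1
  refine ⟨P3 e, pi3 e, isChain h0 he1, hcpos, ?_, ?_⟩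
  · calc C * rhoEnt Cent (P3 e) (pi3 e) ≤ |C| * rhoEnt Cent (P3 e) (pi3 e) :=
          mul_le_mul_of_nonneg_right (le_abs_self C) hnn1
      _ ≤ |C| * t₀ := mul_le_mul_of_nonneg_left hrho hCabs
      _ < L / (s + 1) := hmain
      _ ≤ _ := hinv
  · calc C * tauEnt (P3 e) (pi3 e) ≤ |C| * tauEnt (P3 e) (pi3 e) :=
          mul_le_mul_of_nonneg_right (le_abs_self C) hnn2
      _ ≤ |C| * t₀ := mul_le_mul_of_nonneg_left htau hCabs
      _ < L / (s + 1) := hmain
      _ ≤ _ := hinv

end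

end Pool.Agent.Results.MP_bada7b_pr.ThreeStates
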